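import Pool.Agent.H68.DS.Delta1

set_option autoImplicit false
set_option maxSynthPendingDepth 3

namespace Pool.Agent.H68.DS
open Finset

lemma digits_zero (L : ℤ) (k : ℕ) : ∀ c : ℕ → ℤ, (∀ e, |c e| < L) →
    ∑ e ∈ range k, c e * L ^ e = 0 → ∀ e < k, c e = 0 := by
  induction k with
  | zero => intro c _ _ e he; omega
  | succ k ih =>
    intro c hc hs
    rw [sum_range_succ'] at hs
    have hL : 0 < L := lt_of_le_of_lt (abs_nonneg _) (hc 0)
    have h1 : ∑ e ∈ range k, c (e + 1) * L ^ (e + 1) = L * ∑ e ∈ range k, c (e + 1) * L ^ e := by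
      rw [mul_sum]; exact sum_congr rfl fun e _ => by ring
    rw [h1, pow_zero, mul_one] at hs
    have h0 : c 0 = 0 := Int.eq_zero_of_abs_lt_dvd
      ⟨-∑ e ∈ range k, c (e + 1) * L ^ e, by linear_combination hs⟩ (hc 0)
    rw [h0, add_zero] at hs
    have h2 := ih (fun e => c (e + 1)) (fun e => hc _)
      ((mul_eq_zero.mp hs).resolve_left hL.ne')
    intro e he
    rcases e with _ | e
    · exact h0
    · exact h2 e (by omega)

lemma sum_cyc (m j : ℕ) : ∑ i ∈ range m, (2 : ℤ) ^ ((i + j) % m) = 2 ^ m - 1 := by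
  induction j with
  | zero =>
    have : ∑ i ∈ range m, (2 : ℤ) ^ ((i + 0) % m) = ∑ i ∈ range m, 2 ^ i :=
      sum_congr rfl fun i hi => by rw [add_zero, Nat.mod_eq_of_lt (mem_range.mp hi)]
    rw [this]
    have := mul_geom_sum (2 : ℤ) m
    linarith
  | succ j ih =>
    have h1 := sum_range_succ (fun i => (2 : ℤ) ^ ((i + j) % m)) m
    have h2 := sum_range_succ' (fun i => (2 : ℤ) ^ ((i + j) % m)) m
    have h3 : ∑ i ∈ range m, (2 : ℤ) ^ ((i + (j + 1)) % m) =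
        ∑ i ∈ range m, (2 : ℤ) ^ ((i + 1 + j) % m) :=
      sum_congr rfl fun i _ => by rw [show i + (j + 1) = i + 1 + j by ring]
    rw [Nat.add_mod_left] at h1
    rw [zero_add] at h2
    linarith

lemma dvd_cyc (m a : ℕ) : (2 : ℤ) ^ m - 1 ∣ 2 ^ a - 2 ^ (a % m) := by
  have h := sub_dvd_pow_sub_pow ((2 : ℤ) ^ m) 1 (a / m)
  have e : (2 : ℤ) ^ a - 2 ^ (a % m) = 2 ^ (a % m) * ((2 ^ m) ^ (a / m) - 1 ^ (a / m)) := by
    rw [one_pow, mul_sub, ← pow_mul, ← pow_add, Nat.mod_add_div, mul_one]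
  rw [e]
  exact h.mul_left _

lemma girth_aux (m : ℕ) (s : Multiset ℤ) : (∀ r ∈ s, ∃ j, (2 : ℤ) ^ m - 1 ∣ r + 2 ^ j) →
    ∃ F : ℕ → ℤ, (∀ i, (2 : ℤ) ^ m - 1 ∣ 2 ^ i * s.sum + F i) ∧
      (∀ i, (Multiset.card s : ℤ) ≤ F i) ∧
      ∑ i ∈ range m, F i = Multiset.card s * (2 ^ m - 1) := by
  induction s using Multiset.induction_on with
  | empty => intro _; exact ⟨fun _ => 0, by simp, by simp, by simp⟩
  | cons a s ih =>
    intro h
    obtain ⟨F, f1, f2, f3⟩ := ih fun r hr => h r (Multiset.mem_cons_of_mem hr)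
    obtain ⟨j, hj⟩ := h a (Multiset.mem_cons_self _ _)
    refine ⟨fun i => F i + 2 ^ ((i + j) % m), fun i => ?_, fun i => ?_, ?_⟩
    · have := ((f1 i).add (hj.mul_left (2 ^ i))).sub (dvd_cyc m (i + j))
      have e : 2 ^ i * (a ::ₘ s).sum + (F i + 2 ^ ((i + j) % m)) =
          2 ^ i * s.sum + F i + 2 ^ i * (a + 2 ^ j) - (2 ^ (i + j) - 2 ^ ((i + j) % m)) := by
        rw [Multiset.sum_cons]; ring
      show _ ∣ 2 ^ i * (a ::ₘ s).sum + (F i + 2 ^ ((i + j) % m))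
      rw [e]; exact this
    · have h1 := f2 i
      have h2 : (1 : ℤ) ≤ 2 ^ ((i + j) % m) := one_le_pow₀ (by norm_num)
      rw [Multiset.card_cons]
      push_cast
      linarith
    · rw [sum_add_distrib, f3, sum_cyc, Multiset.card_cons]
      push_cast
      ring

lemma girth (m : ℕ) (s : Multiset ℤ) (h : ∀ r ∈ s, ∃ j, (2 : ℤ) ^ m - 1 ∣ r + 2 ^ j)
    (h0 : s.sum = 0) (hs : 0 < Multiset.card s) : m ≤ Multiset.card s := by
  rcases Nat.eq_zero_or_pos m with rfl | hm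
  · omega
  obtain ⟨F, f1, f2, f3⟩ := girth_aux m s h
  have hN : (0 : ℤ) < 2 ^ m - 1 := by
    have : (1 : ℤ) < 2 ^ m := one_lt_pow₀ (by norm_num) hm.ne'
    omega
  have h1 : ∀ i ∈ range m, (2 : ℤ) ^ m - 1 ≤ F i := fun i _ =>
    Int.le_of_dvd (by have := f2 i; omega) (by simpa [h0] using f1 i)
  have h2 := card_nsmul_le_sum _ _ _ h1
  rw [f3, card_range, nsmul_eq_mul] at h2
  exact_mod_cast le_of_mul_le_mul_right h2 hN

section
variable (D : Finset ℕ) (m : ℕ) (L : ℤ)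

/-- the members that split into two members of the same kind -/
def RB (r : ℤ) : Prop :=
  (∃ j < m, r = -2 ^ j) ∨ (∃ j < m, r = 2 ^ m - 1 - 2 ^ j) ∨
    (∃ d ∈ D, ∃ k < m, r = L ^ d + (2 ^ k - 1)) ∨
    (∃ d ∈ D, ∃ e ∈ D, ∃ k < m, r = (d + 1) * L ^ d + (e + 1) * L ^ e + (2 ^ k - 1))

/-- all members -/
def RR (r : ℤ) : Prop := RB D m L r ∨ ∃ d ∈ D, r = (d + 1) * L ^ d

/-- the properties of the coordinate vector of a member -/
def Good (g : ℕ → ℤ) : Prop :=
  (∀ e, 1 ≤ e → 0 ≤ g e) ∧ (∀ e, |g e| ≤ 2 ^ m + 2 * (m + 1)) ∧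
    ((∃ j, (2 : ℤ) ^ m - 1 ∣ g 0 + 2 ^ j) ∨ ∃ e ∈ D, g e ≠ 0) ∧
    ∀ d ∈ D, (∀ e ∈ D, e ≠ d → g e = 0) →
      g d ≤ 1 ∨ g = Pi.single d ((d : ℤ) + 1) ∨ (d : ℤ) + 1 < g d

/-- value of a coordinate vector -/
def val : (ℕ → ℤ) →+ ℤ where
  toFun g := ∑ e ∈ range (m + 1), g e * L ^ e
  map_zero' := by simp
  map_add' g h := by simp [add_mul, sum_add_distrib]

variable {D m L}

lemma val_single {e : ℕ} (he : e ≤ m) (a : ℤ) : val m L (Pi.single e a) = a * L ^ e := by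
  show ∑ i ∈ range (m + 1), (Pi.single e a : ℕ → ℤ) i * L ^ i = _
  rw [sum_eq_single e]
  · simp
  · intro i _ hi; simp [hi]
  · intro h; exact absurd (mem_range.mpr (by omega)) h

lemma RB.split (hm : 0 < m) {r : ℤ} (h : RB D m L r) :
    ∃ a b, RB D m L a ∧ RB D m L b ∧ r = a + b := by
  obtain ⟨m, rfl⟩ : ∃ k, m = k + 1 := ⟨m - 1, by omega⟩
  have n1 : ∀ j < m + 1, RB D (m + 1) L (-2 ^ j) := fun j hj => Or.inl ⟨j, hj, rfl⟩
  have n2 : ∀ j < m + 1, RB D (m + 1) L (2 ^ (m + 1) - 1 - 2 ^ j) := fun j hj =>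
    Or.inr (Or.inl ⟨j, hj, rfl⟩)
  rcases h with ⟨j, hj, rfl⟩ | ⟨j, hj, rfl⟩ | ⟨d, hd, k, hk, rfl⟩ | ⟨d, hd, e, he, k, hk, rfl⟩
  · rcases j with _ | j
    · exact ⟨_, _, n1 m (by omega), n2 m (by omega), by ring⟩
    · exact ⟨_, _, n1 j (by omega), n1 j (by omega), by ring⟩
  · rcases j with _ | j
    · exact ⟨_, _, n2 m (by omega), n2 m (by omega), by ring⟩
    · exact ⟨_, _, n1 j (by omega), n2 j (by omega), by ring⟩
  · by_cases h : k = m
    · exact ⟨_, _, n2 m (by omega), Or.inr (Or.inr (Or.inl ⟨d, hd, 0, by omega, rfl⟩)),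
        by rw [h]; ring⟩
    · exact ⟨_, _, n1 k hk, Or.inr (Or.inr (Or.inl ⟨d, hd, k + 1, by omega, rfl⟩)), by ring⟩
  · by_cases h : k = m
    · exact ⟨_, _, n2 m (by omega), Or.inr (Or.inr (Or.inr ⟨d, hd, e, he, 0, by omega, rfl⟩)),
        by rw [h]; ring⟩
    · exact ⟨_, _, n1 k hk, Or.inr (Or.inr (Or.inr ⟨d, hd, e, he, k + 1, by omega, rfl⟩)),
        by ring⟩

lemma RB.two (hm : 0 < m) {r : ℤ} (h : RB D m L r) : C (RR D m L) 2 r := by
  obtain ⟨a, b, h1, h2, rfl⟩ := h.split hm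
  exact (C.one (R := RR D m L) (Or.inl h1)).add (C.one (Or.inl h2))

lemma RR.up (hm : 0 < m) (h : ℕ) (ρ : ℤ) (h2 : 2 ≤ h) (a : C (RR D m L) h ρ) :
    C (RR D m L) (h + 1) ρ := by
  obtain ⟨h, rfl⟩ : ∃ k, h = k + 1 + 1 := ⟨h - 2, by omega⟩
  obtain ⟨r, r1, r2⟩ := a.succ
  obtain ⟨r', r3, r4⟩ := r2.succ
  rcases r1 with r1 | ⟨d, hd, r1⟩
  · simpa using r2.add (r1.two hm)
  rcases r3 with r3 | ⟨e, he, r3⟩
  · have := (r4.add (r3.two hm)).add (C.one (R := RR D m L) (Or.inr ⟨d, hd, r1⟩))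
    simpa using this
  · have hb : RB D m L (r + r') := Or.inr (Or.inr (Or.inr ⟨d, hd, e, he, 0, hm, by
      rw [r1, r3]; ring⟩))
    obtain ⟨a, b, h1, h2, h3⟩ := hb.split hm
    have := (r4.add (h1.two hm)).add (C.one (R := RR D m L) (Or.inl h2))
    rwa [show ρ - r - r' + a + b = ρ by linarith] at this

lemma RR.lift (hpos : ∀ d ∈ D, 0 < d) (hle : ∀ d ∈ D, d ≤ m) {r : ℤ} (h : RR D m L r) :
    ∃ g, Good D m g ∧ val m L g = r := by
  have hp : ∀ j < m, (1 : ℤ) ≤ 2 ^ j ∧ (2 : ℤ) ^ j ≤ 2 ^ m := fun j hj =>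
    ⟨one_le_pow₀ (by norm_num), pow_le_pow_right₀ (by norm_num) hj.le⟩
  have hm : (0 : ℤ) ≤ m := by positivity
  have hm' : (0 : ℤ) < 2 ^ m := by positivity
  rcases h with (⟨j, hj, rfl⟩ | ⟨j, hj, rfl⟩ | ⟨d, hd, k, hk, rfl⟩ | ⟨d, hd, e, he, k, hk, rfl⟩) |
    ⟨d, hd, rfl⟩
  · have := hp j hj
    refine ⟨Pi.single 0 (-2 ^ j), ⟨fun e he => ?_, fun e => ?_, Or.inl ⟨j, by simp⟩,
      fun d hd _ => Or.inl ?_⟩, by simp [val_single]⟩
    · rw [Pi.single_eq_of_ne (by omega)]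
    · rw [Pi.single_apply, abs_le]; split_ifs <;> omega
    · rw [Pi.single_eq_of_ne (hpos d hd).ne']; omega
  · have := hp j hj
    refine ⟨Pi.single 0 (2 ^ m - 1 - 2 ^ j), ⟨fun e he => ?_, fun e => ?_, Or.inl ⟨j, by simp⟩,
      fun d hd _ => Or.inl ?_⟩, by simp [val_single]⟩
    · rw [Pi.single_eq_of_ne (by omega)]
    · rw [Pi.single_apply, abs_le]; split_ifs <;> omega
    · rw [Pi.single_eq_of_ne (hpos d hd).ne']; omega
  · have := hp k hk
    have := hpos d hd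
    refine ⟨Pi.single d 1 + Pi.single 0 (2 ^ k - 1), ⟨fun e he => ?_, fun e => ?_,
      Or.inr ⟨d, hd, ?_⟩, fun d' hd' _ => Or.inl ?_⟩, by simp [val_single, hle d hd]⟩
    · simp only [Pi.add_apply, Pi.single_apply]; split_ifs <;> omega
    · simp only [Pi.add_apply, Pi.single_apply, abs_le]; split_ifs <;> omega
    · simp only [Pi.add_apply, Pi.single_apply]; split_ifs <;> omega
    · have := hpos d' hd'
      simp only [Pi.add_apply, Pi.single_apply]; split_ifs <;> omega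
  · have := hp k hk
    have := hpos d hd
    have := hpos e he
    have := hle d hd
    have := hle e he
    refine ⟨Pi.single d ((d : ℤ) + 1) + Pi.single e ((e : ℤ) + 1) + Pi.single 0 (2 ^ k - 1),
      ⟨fun e he => ?_, fun e => ?_, Or.inr ⟨d, hd, ?_⟩, fun d' hd' h => Or.inr (Or.inr ?_)⟩,
      by simp [val_single, hle d hd, hle e he]⟩
    · simp only [Pi.add_apply, Pi.single_apply]; split_ifs <;> omega
    · simp only [Pi.add_apply, Pi.single_apply, abs_le]; split_ifs <;> omega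
    · simp only [Pi.add_apply, Pi.single_apply]; split_ifs <;> omega
    · have h1 := h d hd
      have h2 := h e he
      simp only [Pi.add_apply, Pi.single_apply] at h1 h2 ⊢
      split_ifs at h1 h2 ⊢ <;> omega
  · have := hpos d hd
    have := hle d hd
    refine ⟨Pi.single d ((d : ℤ) + 1), ⟨fun e he => ?_, fun e => ?_, Or.inr ⟨d, hd, ?_⟩,
      fun d' hd' h => ?_⟩, val_single (hle d hd) _⟩
    · simp only [Pi.single_apply]; split_ifs <;> omega
    · simp only [Pi.single_apply, abs_le]; split_ifs <;> omega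
    · simp only [Pi.single_apply]; split_ifs <;> omega
    · by_cases h' : d' = d
      · rw [h']; exact Or.inr (Or.inl rfl)
      · left; rw [Pi.single_eq_of_ne h']; omega

lemma C.lift (hpos : ∀ d ∈ D, 0 < d) (hle : ∀ d ∈ D, d ≤ m) {h : ℕ} : ∀ {ρ : ℤ},
    C (RR D m L) h ρ → ∃ s : Multiset (ℕ → ℤ), (∀ g ∈ s, Good D m g) ∧ Multiset.card s = h ∧
      val m L s.sum = ρ ∧ ∀ e, |s.sum e| ≤ h * (2 ^ m + 2 * (m + 1)) := by
  induction h with
  | zero => intro ρ a; exact ⟨0, by simp, rfl, by simp [a.eq_zero], by simp⟩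
  | succ h ih =>
    intro ρ a
    obtain ⟨r, r1, r2⟩ := a.succ
    obtain ⟨s, s1, s2, s3, s4⟩ := ih r2
    obtain ⟨g, g1, g2⟩ := r1.lift hpos hle
    refine ⟨g ::ₘ s, fun x hx => ?_, by simp [s2], by simp [g2, s3], fun e => ?_⟩
    · rcases Multiset.mem_cons.mp hx with rfl | hx
      exacts [g1, s1 x hx]
    · have := abs_add_le (g e) (s.sum e)
      have := g1.2.1 e
      have := s4 e
      rw [Multiset.sum_cons, Pi.add_apply]
      push_cast
      linarith

lemma good_le (s : Multiset (ℕ → ℤ)) (hs : ∀ g ∈ s, Good D m g) {e : ℕ} (he : 1 ≤ e)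
    {g : ℕ → ℤ} (hg : g ∈ s) : g e ≤ s.sum e := by
  rw [Pi.multiset_sum_apply]
  refine Multiset.single_le_sum (fun x hx => ?_) _ (Multiset.mem_map_of_mem _ hg)
  obtain ⟨g', h1, rfl⟩ := Multiset.mem_map.mp hx
  exact (hs g' h1).1 e he

lemma good_zero (hpos : ∀ d ∈ D, 0 < d) (hle : ∀ d ∈ D, d ≤ m) (s : Multiset (ℕ → ℤ))
    (hs : ∀ g ∈ s, Good D m g) (h0 : ∀ e ≤ m, s.sum e = 0) (hc : 0 < Multiset.card s) :
    m ≤ Multiset.card s := by
  have := girth m (s.map (fun g => g 0)) (fun r hr => ?_)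
    (by rw [← Pi.multiset_sum_apply]; exact h0 0 (by omega)) (by simpa using hc)
  · simpa using this
  · obtain ⟨g, hg, rfl⟩ := Multiset.mem_map.mp hr
    rcases (hs g hg).2.2.1 with h | ⟨e, he, h⟩
    · exact h
    · have h1 := good_le s hs (hpos e he) hg
      have h2 := (hs g hg).1 e (hpos e he)
      rw [h0 e (hle e he)] at h1
      omega

end

theorem exists_data (D : Finset ℕ) (m : ℕ) (hpos : ∀ d ∈ D, 0 < d) (hle : ∀ d ∈ D, d ≤ m)
    (h1 : 1 ∈ D) (hmD : m ∈ D) (hm : 2 ≤ m) : ∃ R P Q, Data R D m P Q := by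
  set K : ℤ := 2 ^ m + 2 * (m + 1) with hK
  have hK0 : 0 < K := by positivity
  set L : ℤ := (m + 1) * K + 1 with hL
  have hL1 : 1 ≤ L := by nlinarith
  have n1 : ∀ j < m, RR D m L (-2 ^ j) := fun j hj => Or.inl (Or.inl ⟨j, hj, rfl⟩)
  have hbd : ∀ r, RR D m L r → |r| ≤ ∑ e ∈ range (m + 1), K * L ^ e := by
    intro r hr
    obtain ⟨g, g1, rfl⟩ := hr.lift hpos hle
    show |∑ e ∈ range (m + 1), g e * L ^ e| ≤ _
    refine (abs_sum_le_sum_abs _ _).trans (sum_le_sum fun e _ => ?_)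
    rw [abs_mul, abs_of_nonneg (show 0 ≤ L ^ e by positivity)]
    exact mul_le_mul_of_nonneg_right (g1.2.1 e) (by positivity)
  obtain ⟨Q, q1, q2⟩ := Int.exists_greatest_of_bdd (P := RR D m L)
    ⟨_, fun r hr => (abs_le.mp (hbd r hr)).2⟩ ⟨_, n1 0 (by omega)⟩
  obtain ⟨P, p1, p2⟩ := Int.exists_least_of_bdd (P := RR D m L)
    ⟨_, fun r hr => (abs_le.mp (hbd r hr)).1⟩ ⟨_, n1 0 (by omega)⟩
  have att : ∀ d ∈ D, C (RR D m L) (1 + d) ((d + 1) * L ^ d) ∧
      ∀ h, 1 < h → h < 1 + d → ¬ C (RR D m L) h ((d + 1) * L ^ d) := by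
    intro d hd
    have hdm := hle d hd
    constructor
    · have := C.rep (R := RR D m L) (Or.inl (Or.inr (Or.inr (Or.inl ⟨d, hd, 0, by omega, rfl⟩))))
        (1 + d)
      rwa [show ((1 + d : ℕ) : ℤ) * (L ^ d + (2 ^ 0 - 1)) = (d + 1) * L ^ d by
        push_cast; ring] at this
    · intro h i1 i2 a
      obtain ⟨s, s1, s2, s3, s4⟩ := a.lift hpos hle
      have hz := digits_zero L (m + 1) (s.sum - Pi.single d ((d : ℤ) + 1)) (fun e => by
        have t1 := s4 e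
        have t2 : (h : ℤ) * K ≤ m * K := mul_le_mul_of_nonneg_right (by omega) hK0.le
        have t3 : |(Pi.single d ((d : ℤ) + 1) : ℕ → ℤ) e| ≤ K := by
          have : (0 : ℤ) < 2 ^ m := by positivity
          rw [Pi.single_apply, abs_le]; split_ifs <;> omega
        have t4 := abs_sub (s.sum e) ((Pi.single d ((d : ℤ) + 1) : ℕ → ℤ) e)
        rw [Pi.sub_apply]
        linarith) (by
        show val m L _ = 0
        rw [map_sub, s3, val_single hdm, sub_self])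
      have hz' : ∀ e ≤ m, s.sum e = (Pi.single d ((d : ℤ) + 1) : ℕ → ℤ) e := fun e he =>
        sub_eq_zero.mp (hz e (by omega))
      by_cases hσ : Pi.single d ((d : ℤ) + 1) ∈ s
      · obtain ⟨t, rfl⟩ := Multiset.exists_cons_of_mem hσ
        rw [Multiset.card_cons] at s2
        have := good_zero hpos hle t (fun g hg => s1 g (Multiset.mem_cons_of_mem hg))
          (fun e he => by simpa using hz' e he) (by omega)
        omega
      · have t1 : s.sum d ≤ Multiset.card (s.map (fun g => g d)) • (1 : ℤ) := by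
          rw [Pi.multiset_sum_apply]
          refine Multiset.sum_le_card_nsmul _ _ fun x hx => ?_
          obtain ⟨g, hg, rfl⟩ := Multiset.mem_map.mp hx
          rcases (s1 g hg).2.2.2 d hd (fun e he hne => by
            have u1 := good_le s s1 (hpos e he) hg
            have u2 := (s1 g hg).1 e (hpos e he)
            rw [hz' e (hle e he), Pi.single_eq_of_ne hne] at u1
            omega) with u | u | u
          · exact u
          · exact absurd (u ▸ hg) hσ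
          · have u1 := good_le s s1 (hpos d hd) hg
            rw [hz' d hdm, Pi.single_eq_same] at u1
            omega
        rw [hz' d hdm, Pi.single_eq_same, Multiset.card_map, s2] at t1
        simp at t1
        omega
  have hsig : ∀ d ∈ D, RR D m L ((d + 1) * L ^ d) := fun d hd => Or.inr ⟨d, hd, rfl⟩
  refine ⟨RR D m L, -P, Q, by simpa using n1 0 (by omega), by simpa using p1, q1, ?_,
    fun r hr => ⟨by simpa using p2 r hr, q2 r hr⟩, RR.up (by omega), ?_, ?_, ?_, hmD, hm, hle,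
    hpos, h1, fun d hd => ⟨_, hsig d hd, att d hd⟩⟩
  · exact lt_of_lt_of_le (by positivity) (q2 _ (hsig 1 h1))
  · rintro ρ (h | ⟨d, hd, rfl⟩)
    · exact ⟨1, h1, h.two (by omega), fun h _ _ => by omega⟩
    · exact ⟨d, hd, att d hd⟩
  · have : ∀ k < m, C (RR D m L) k (1 - 2 ^ k) := by
      intro k
      induction k with
      | zero => intro _; simpa using C.zero
      | succ k ih =>
        intro hk
        have := (ih (by omega)).add (C.one (n1 k (by omega)))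
        rwa [show (1 : ℤ) - 2 ^ k + -2 ^ k = 1 - 2 ^ (k + 1) by ring] at this
    obtain ⟨k, hk⟩ : ∃ k, m = k + 1 := ⟨m - 1, by omega⟩
    have := (this k (by omega)).add
      (C.one (R := RR D m L) (Or.inl (Or.inr (Or.inl ⟨k, by omega, rfl⟩))))
    rwa [show (1 : ℤ) - 2 ^ k + (2 ^ m - 1 - 2 ^ k) = 0 by rw [hk]; ring, ← hk] at this
  · intro h i1 i2 a
    obtain ⟨s, s1, s2, s3, s4⟩ := a.lift hpos hle
    have hz := digits_zero L (m + 1) s.sum (fun e => by
      have t1 := s4 e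
      have t2 : (h : ℤ) * K ≤ m * K := mul_le_mul_of_nonneg_right (by omega) hK0.le
      linarith) s3
    have := good_zero hpos hle s s1 (fun e he => hz e (by omega)) (by omega)
    omega

end Pool.Agent.H68.DS
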