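import Pool.Agent.H68.DS.Delta2

/-!
Sets of lengths of the semigroup generated by `n` and `(g + 1) n + g r`, `r ∈ R`.
The case `g = 1` is the construction of the earlier run (R_pool_sql_team_22c7b01f, H23.Delta1).
-/

set_option autoImplicit false
set_option maxSynthPendingDepth 3

namespace Pool.Agent.H68.DS

variable {R : ℤ → Prop} {D : Finset ℕ} {m : ℕ} {P Q : ℤ}

/-- lengths of factorizations -/
def Len (R : ℤ → Prop) (g : ℕ) (n : ℤ) (x : ℤ) (j : ℕ) : Prop :=
  ∃ (k l : ℕ) (ρ : ℤ), C R l ρ ∧ x = k * n + l * ((g + 1) * n) + g * ρ ∧ j = k + l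

lemma Data.gap_mem (H : Data R D m P Q) {g : ℕ} (hg : 0 < g) {n : ℤ}
    (hn : (P + Q + m + 5) * (P + Q) ≤ n) (hcop : IsCoprime (g : ℤ) n) {x : ℤ}
    {j δ : ℕ} (hδ : 0 < δ) (a : Len R g n x j) (b : Len R g n x (j + δ))
    (hno : ∀ i, j < i → i < j + δ → ¬ Len R g n x i) : ∃ d ∈ D, δ = g * d := by
  have hP := H.Ppos
  have hQ := H.Qpos
  have hm : (0 : ℤ) ≤ m := by positivity
  have hn0 : 0 < n := by nlinarith
  have hg' : (0 : ℤ) < g := by exact_mod_cast hg
  obtain ⟨k', l', ρ', a1, a2, a3⟩ := a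
  obtain ⟨k, l, ρ, b1, b2, b3⟩ := b
  have hcn : ((k : ℤ) + (g + 1) * l - k' - (g + 1) * l') * n = g * (ρ' - ρ) := by
    linear_combination a2 - b2
  obtain ⟨c, hc⟩ : (g : ℤ) ∣ (k : ℤ) + (g + 1) * l - k' - (g + 1) * l' :=
    hcop.dvd_of_dvd_mul_right ⟨ρ' - ρ, hcn⟩
  have hρ : ρ' = ρ + c * n := by
    rw [hc] at hcn
    have : (g : ℤ) * (c * n) = g * (ρ' - ρ) := by linarith
    have := mul_left_cancel₀ hg'.ne' this
    linarith
  have hdd : (δ : ℤ) = g * (c + l' - l) := by
    have h1 : (j : ℤ) = k' + l' := by exact_mod_cast a3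
    have h2 : (j : ℤ) + δ = k + l := by exact_mod_cast b3
    linear_combination h2 - h1 + hc
  have hdpos : 0 < c + l' - l := by
    have h1 : (0 : ℤ) < δ := by exact_mod_cast hδ
    rw [hdd] at h1
    exact (mul_pos_iff_of_pos_left hg').1 h1
  obtain ⟨d, hd⟩ := Int.eq_ofNat_of_zero_le hdpos.le
  have hδd : δ = g * d := by rw [hd] at hdd; exact_mod_cast hdd
  have hd0 : 0 < d := by omega
  refine ⟨d, ?_, hδd⟩
  by_cases hd1 : d = 1
  · rw [hd1]; exact H.oneD
  obtain ⟨d0, hd0⟩ : ∃ d0, d = d0 + 2 := ⟨d - 2, by omega⟩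
  have hδ2 : δ = g * d0 + 2 * g := by rw [hδd, hd0]; ring
  have hno1 : ¬ Len R g n x (j + δ - g) := hno _ (by omega) (by omega)
  by_cases hA : C R (l + 1) ρ
  · exfalso
    have hk : k ≤ g := by
      by_contra hk
      obtain ⟨k0, rfl⟩ : ∃ k0, k = k0 + (g + 1) := ⟨k - (g + 1), by omega⟩
      exact hno1 ⟨k0, l + 1, ρ, hA, by rw [b2]; push_cast; ring, by omega⟩
    obtain ⟨l0, rfl⟩ : ∃ l0, l = l0 + g := ⟨l - g, by omega⟩
    refine hno1 ⟨k, l0, ρ + (g + 1) * n, ?_, by rw [b2]; push_cast; ring, by omega⟩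
    have hgn : 0 ≤ (g : ℤ) * n := by positivity
    rcases le_total (ρ + (g + 1) * n) 0 with h | h
    · refine H.upNeg h ?_
      have := (b1.bounds H.bd).1
      push_cast at this
      have h5 : (g : ℤ) * P ≤ g * n := mul_le_mul_of_nonneg_left (by nlinarith) hg'.le
      have h6 : (P + m) * P ≤ n := by nlinarith
      nlinarith
    · refine H.upPos h ?_
      have h1 := (a1.bounds H.bd).2
      have h2 : (g : ℤ) + 2 ≤ c := by
        push_cast at hd
        have h7 : (l' : ℤ) ≤ l0 + 0 := by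
          have : l' ≤ l0 := by omega
          exact_mod_cast this
        omega
      have h3 : (l' : ℤ) ≤ l0 := by
        have : l' ≤ l0 := by omega
        exact_mod_cast this
      have h4 : ((g : ℤ) + 2) * n ≤ c * n := mul_le_mul_of_nonneg_right h2 hn0.le
      have h5 : (l' : ℤ) * Q ≤ l0 * Q := mul_le_mul_of_nonneg_right h3 hQ.le
      have h6 : (Q + m + 1) * Q ≤ n := by nlinarith
      nlinarith
  · have hl : l ≤ 1 := by
      by_contra hl
      exact hA (H.up l ρ (by omega) b1)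
    obtain ⟨e, he, e1, e2⟩ : ∃ e ∈ D, C R (l + e) ρ ∧ ∀ h, l < h → h < l + e → ¬ C R h ρ := by
      interval_cases l
      · rw [b1.eq_zero]
        exact ⟨m, H.mD, by simpa using H.zm, fun h h1 h2 => H.girth h h1 (by omega)⟩
      · exact H.one ρ b1.of_one
    have hem := H.le e he
    have he0 := H.pos e he
    have hb : -P ≤ ρ ∧ ρ ≤ Q := by
      have := b1.bounds H.bd
      interval_cases l
      · rw [b1.eq_zero]; omega
      · simpa using this
    have key : (g + 1) * e ≤ k → d ≤ e := by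
      intro hk
      obtain ⟨k0, rfl⟩ : ∃ k0, k = k0 + (g + 1) * e := ⟨k - (g + 1) * e, by omega⟩
      by_contra hlt
      push Not at hlt
      have h8 : g * e < g * d := Nat.mul_lt_mul_of_pos_left hlt hg
      have h9 : 0 < g * e := Nat.mul_pos hg he0
      have h10 : (g + 1) * e = g * e + e := by ring
      exact hno (j + δ - g * e) (by omega) (by omega)
        ⟨k0, l + e, ρ, e1, by rw [b2]; push_cast; ring, by omega⟩
    by_cases hc0 : c = 0
    · rw [hc0, zero_mul, add_zero] at hρ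
      rw [hρ] at a1
      have hdl : (l' : ℤ) = l + d := by rw [hc0] at hd; omega
      have hdl' : l' = l + d := by exact_mod_cast hdl
      have h1 : e ≤ d := by
        by_contra hlt
        exact e2 l' (by omega) (by omega) a1
      have hk : (g + 1) * e ≤ k := by
        have h2 : (k : ℤ) = k' + (g + 1) * d := by
          rw [hc0, mul_zero] at hc
          rw [hdl] at hc
          linear_combination hc
        have h3 : k = k' + (g + 1) * d := by exact_mod_cast h2
        rw [h3]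
        exact le_add_of_nonneg_of_le (Nat.zero_le _) (Nat.mul_le_mul_left _ h1)
      have h2 := key hk
      rw [le_antisymm h2 h1]; exact he
    · rw [hρ] at a1
      obtain ⟨f1, f2⟩ := H.far hn hb.1 hb.2 hc0 a1
      have hk : (g + 1) * e ≤ k := by
        have h2 : (k : ℤ) = g * (c + l') + k' + l' - (g + 1) * l := by linear_combination hc
        have h3 : (g : ℤ) * (m + 3) ≤ g * (c + l') := mul_le_mul_of_nonneg_left f2 hg'.le
        have h4 : ((g : ℤ) + 1) * l ≤ (g + 1) * 1 :=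
          mul_le_mul_of_nonneg_left (by exact_mod_cast hl) (by positivity)
        have h5 : ((g : ℤ) + 1) * e ≤ (g + 1) * m :=
          mul_le_mul_of_nonneg_left (by exact_mod_cast hem) (by positivity)
        have h6 : (0 : ℤ) ≤ k' := by positivity
        have h7 : ((g : ℤ) + 1) * e ≤ k := by nlinarith
        exact_mod_cast h7
      have h2 := key hk
      omega

lemma Data.gap_att (H : Data R D m P Q) {g : ℕ} (hg : 0 < g) {n : ℤ}
    (hn : (P + Q + m + 5) * (P + Q) ≤ n) (hcop : IsCoprime (g : ℤ) n) {d : ℕ}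
    (hd : d ∈ D) : ∃ (x j : ℕ), Len R g n x j ∧ Len R g n x (j + g * d) ∧
      ∀ i, j < i → i < j + g * d → ¬ Len R g n x i := by
  have hP := H.Ppos
  have hQ := H.Qpos
  have hm : (0 : ℤ) ≤ m := by positivity
  have hg' : (0 : ℤ) < g := by exact_mod_cast hg
  obtain ⟨ρ, h1, h2, h3⟩ := H.att d hd
  have hb := H.bd ρ h1
  have hdm := H.le d hd
  have hn0 : P ≤ n := by nlinarith
  have hn1 : 0 < n := by linarith
  obtain ⟨x, hx⟩ := Int.eq_ofNat_of_zero_le
    (show 0 ≤ ((1 + d : ℕ) : ℤ) * ((g + 1) * n) + g * ρ by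
    have h4 : (0 : ℤ) ≤ d := by positivity
    have h5 : (g : ℤ) * (-P) ≤ g * ρ := mul_le_mul_of_nonneg_left hb.1 hg'.le
    have h6 : (g : ℤ) * P ≤ g * n := mul_le_mul_of_nonneg_left hn0 hg'.le
    have h7 : 0 ≤ (d : ℤ) * ((g + 1) * n) := by positivity
    have h8 : (0 : ℤ) ≤ g * n := by positivity
    push_cast
    nlinarith)
  refine ⟨x, 1 + d, ⟨0, 1 + d, ρ, h2, by rw [← hx]; push_cast; ring, by omega⟩,
    ⟨(g + 1) * d, 1, ρ, C.one h1, by rw [← hx]; push_cast; ring, by ring⟩, ?_⟩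
  rintro i i1 i2 ⟨k', l', ρ', a1, a2, a3⟩
  have hcn : (((g : ℤ) + 1) * (1 + d) - k' - (g + 1) * l') * n = g * (ρ' - ρ) := by
    have := hx
    push_cast at this
    linear_combination this + a2
  obtain ⟨c, hc⟩ : (g : ℤ) ∣ ((g : ℤ) + 1) * (1 + d) - k' - (g + 1) * l' :=
    hcop.dvd_of_dvd_mul_right ⟨ρ' - ρ, hcn⟩
  have hρ : ρ' = ρ + c * n := by
    rw [hc] at hcn
    have : (g : ℤ) * (c * n) = g * (ρ' - ρ) := by linarith
    have := mul_left_cancel₀ hg'.ne' this
    linarith
  have hi : (i : ℤ) = (1 + d) + g * (1 + d - c - l') := by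
    have h4 : (i : ℤ) = k' + l' := by exact_mod_cast a3
    linear_combination h4 - hc
  have i1' : (1 : ℤ) + d < i := by exact_mod_cast i1
  have i2' : (i : ℤ) < 1 + d + g * d := by exact_mod_cast i2
  have j1 : (0 : ℤ) < 1 + d - c - l' := by
    have : (0 : ℤ) < g * (1 + d - c - l') := by linarith
    exact (mul_pos_iff_of_pos_left hg').1 this
  have j2 : (1 : ℤ) + d - c - l' < d := by
    have : (g : ℤ) * (1 + d - c - l') < g * d := by linarith
    exact lt_of_mul_lt_mul_left this hg'.le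
  rw [hρ] at a1
  by_cases hc0 : c = 0
  · rw [hc0, zero_mul, add_zero] at a1
    exact h3 l' (by omega) (by omega) a1
  · obtain ⟨f1, f2⟩ := H.far hn hb.1 hb.2 hc0 a1
    omega

end Pool.Agent.H68.DS
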