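import Pool.Agent.H68.DS.Gap

/-!
The numerical semigroup generated by `n` and `(g + 1) n + g r`, `r ∈ R`, its atoms and lengths.
-/

set_option autoImplicit false

namespace Pool.Agent.H68.DS

/-- `a` is an atom (an element of the minimal generating set) of `S`. -/
def IsAtom' (S : AddSubmonoid ℕ) (a : ℕ) : Prop :=
  a ∈ S ∧ a ≠ 0 ∧ ∀ b ∈ S, ∀ c ∈ S, b + c = a → b = 0 ∨ c = 0

/-- `x` has a factorization of length `j` in `S`. -/
def HasLength (S : AddSubmonoid ℕ) (x j : ℕ) : Prop :=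
  ∃ s : Multiset ℕ, (∀ a ∈ s, IsAtom' S a) ∧ s.sum = x ∧ Multiset.card s = j

/-- The delta set of `S`: all differences of consecutive factorization lengths. -/
def deltaSet (S : AddSubmonoid ℕ) : Set ℕ :=
  {d | 0 < d ∧ ∃ x ∈ S, ∃ k, HasLength S x k ∧ HasLength S x (k + d) ∧
    ∀ j, k < j → j < k + d → ¬ HasLength S x j}

/-- the semigroup attached to `R`, `g` and `n` -/
def SG (R : ℤ → Prop) (g n : ℕ) : AddSubmonoid ℕ where
  carrier := {x | ∃ j, Len R g n x j}
  zero_mem' := ⟨0, 0, 0, 0, C.zero, by simp, rfl⟩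
  add_mem' := by
    rintro a b ⟨j, k, l, ρ, a1, a2, a3⟩ ⟨j', k', l', ρ', b1, b2, b3⟩
    exact ⟨j + j', k + k', l + l', ρ + ρ', a1.add b1, by push_cast; rw [a2, b2]; ring, by omega⟩

section
variable {R : ℤ → Prop} {D : Finset ℕ} {m : ℕ} {P Q : ℤ} {g n : ℕ}

lemma size (H : Data R D m P Q) (hg : 0 < g) (hn2 : g * (P + Q) < n) {x : ℤ} {j : ℕ}
    (a : Len R g n x j) : (j : ℤ) * n ≤ x ∧ (x = j * n ∨ (g + 1) * n - g * P ≤ x) := by
  have hP := H.Ppos
  have hQ := H.Qpos
  have hg' : (1 : ℤ) ≤ g := by exact_mod_cast hg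
  have hPn : P ≤ n := by nlinarith
  obtain ⟨k, l, ρ, a1, a2, a3⟩ := a
  have h1 := (a1.bounds H.bd).1
  have hl : (0 : ℤ) ≤ l := by positivity
  have hk : (0 : ℤ) ≤ k := by positivity
  have h2 : (g : ℤ) * (-(l * P)) ≤ g * ρ := mul_le_mul_of_nonneg_left h1 (by omega)
  have h3 : (g : ℤ) * P ≤ g * n := mul_le_mul_of_nonneg_left hPn (by omega)
  have h4 : (l : ℤ) * (g * P) ≤ l * (g * n) := mul_le_mul_of_nonneg_left h3 hl
  have hkn : 0 ≤ (k : ℤ) * n := by positivity
  subst a3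
  push_cast
  refine ⟨by nlinarith, ?_⟩
  rcases Nat.eq_zero_or_pos l with rfl | h
  · left; rw [a2, a1.eq_zero]; simp
  · right
    have h5 : (1 : ℤ) ≤ l := by exact_mod_cast h
    have h6 : (1 : ℤ) * ((g + 1) * n - g * P) ≤ l * ((g + 1) * n - g * P) :=
      mul_le_mul_of_nonneg_right h5 (by nlinarith)
    nlinarith

lemma atom_iff (H : Data R D m P Q) (hg : 0 < g) (hn2 : g * (P + Q) < n) (a : ℕ) :
    IsAtom' (SG R g n) a ↔ Len R g n a 1 := by
  have hP := H.Ppos
  have hQ := H.Qpos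
  have hg' : (1 : ℤ) ≤ g := by exact_mod_cast hg
  have hPn : P + Q < n := by nlinarith
  have hgP : (g : ℤ) * P ≤ g * n := mul_le_mul_of_nonneg_left (by linarith) (by omega)
  constructor
  · rintro ⟨⟨j, hj⟩, h0, h1⟩
    have split : ∀ (y z : ℤ) (i : ℕ), Len R g n y 1 → Len R g n z i → (a : ℤ) = y + z →
        i + 1 = j → Len R g n a 1 := by
      intro y z i hy hz e1 e2
      have s1 := (size H hg hn2 hy).1
      have s2 := (size H hg hn2 hz).1
      have hi : (0 : ℤ) ≤ i * n := by positivity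
      obtain ⟨y', rfl⟩ := Int.eq_ofNat_of_zero_le (show 0 ≤ y by omega)
      obtain ⟨z', rfl⟩ := Int.eq_ofNat_of_zero_le (show 0 ≤ z by omega)
      rcases h1 y' ⟨1, hy⟩ z' ⟨i, hz⟩ (by omega) with h | h
      · omega
      · rw [show a = y' by omega]; exact hy
    obtain ⟨k, l, ρ, a1, a2, a3⟩ := hj
    rcases k with _ | k
    · rcases l with _ | l
      · rw [a1.eq_zero] at a2; simp at a2; omega
      · obtain ⟨r, r1, r2⟩ := a1.succ
        exact split _ _ l ⟨0, 1, r, C.one r1, rfl, rfl⟩ ⟨0, l, ρ - r, r2, rfl, by omega⟩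
          (by rw [a2]; push_cast; ring) (by omega)
    · exact split _ _ (k + l) ⟨1, 0, 0, C.zero, rfl, rfl⟩ ⟨k, l, ρ, a1, rfl, rfl⟩
        (by rw [a2]; push_cast; ring) (by omega)
  · intro h
    have s0 := (size H hg hn2 h).1
    refine ⟨⟨1, h⟩, by omega, ?_⟩
    rintro b ⟨j, hb⟩ c ⟨j', hc⟩ e
    by_contra hne
    push Not at hne
    have nz : ∀ (x i : ℕ), Len R g n x i → x ≠ 0 → ((∃ i : ℕ, (x : ℤ) = i * n) ∨
        ((g : ℤ) + 1) * n - g * P ≤ x) ∧ (n : ℤ) ≤ x := by
      intro x i hx h0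
      obtain ⟨s1, s2 | s2⟩ := size H hg hn2 hx
      · refine ⟨Or.inl ⟨i, s2⟩, ?_⟩
        rcases i with _ | i
        · simp at s2; omega
        · have : (0 : ℤ) ≤ i * n := by positivity
          push_cast at s2
          nlinarith
      · exact ⟨Or.inr s2, by nlinarith⟩
    have t1 := nz b j hb hne.1
    have t2 := nz c j' hc hne.2
    have e' : (b : ℤ) + c = a := by exact_mod_cast e
    obtain ⟨k, l, ρ, a1, a2, a3⟩ := h
    have t3 := (a1.bounds H.bd)
    rcases l with _ | _ | l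
    · rw [a1.eq_zero, show k = 1 by omega] at a2
      push_cast at a2
      omega
    · rw [show k = 0 by omega] at a2
      have hρ0 : ρ ≠ 0 := by
        rintro rfl
        exact H.girth 1 (by omega) (by have := H.m2; omega) a1
      push_cast at a2 t3
      have u1 : (g : ℤ) * ρ ≤ g * Q := mul_le_mul_of_nonneg_left (by linarith [t3.2]) (by omega)
      have u2 : (g : ℤ) * (-P) ≤ g * ρ :=
        mul_le_mul_of_nonneg_left (by linarith [t3.1]) (by omega)
      rcases t1.1 with ⟨i, hi⟩ | hbig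
      · rcases t2.1 with ⟨i', hi'⟩ | hbig
        · have hdvd : (n : ℤ) ∣ g * ρ := ⟨i + i' - (g + 1), by
            rw [hi, hi', a2] at e'
            linear_combination -e'⟩
          have habs : |(g : ℤ) * ρ| < n := by
            rw [abs_lt]
            have p1 : 0 < (g : ℤ) * P := by positivity
            have p2 : 0 < (g : ℤ) * Q := by positivity
            constructor <;> nlinarith
          have := Int.eq_zero_of_abs_lt_dvd hdvd habs
          rcases mul_eq_zero.1 this with h | h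
          · omega
          · exact hρ0 h
        · nlinarith [t1.2]
      · nlinarith [t2.2]
    · omega

lemma len_iff (H : Data R D m P Q) (hg : 0 < g) (hn2 : g * (P + Q) < n) (x j : ℕ) :
    HasLength (SG R g n) x j ↔ Len R g n x j := by
  unfold HasLength
  simp only [atom_iff H hg hn2]
  constructor
  · rintro ⟨s, s1, rfl, rfl⟩
    induction s using Multiset.induction_on with
    | empty => exact ⟨0, 0, 0, C.zero, by simp, rfl⟩
    | cons a s ih =>
      obtain ⟨k, l, ρ, a1, a2, a3⟩ := s1 a (Multiset.mem_cons_self _ _)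
      obtain ⟨k', l', ρ', b1, b2, b3⟩ := ih fun a ha => s1 a (Multiset.mem_cons_of_mem ha)
      refine ⟨k + k', l + l', ρ + ρ', a1.add b1, ?_, by rw [Multiset.card_cons]; omega⟩
      rw [Multiset.sum_cons, Nat.cast_add, a2, b2]
      push_cast
      ring
  · intro h
    induction j generalizing x with
    | zero =>
      obtain ⟨k, l, ρ, a1, a2, a3⟩ := h
      rw [show l = 0 by omega] at a1 a2
      rw [a1.eq_zero, show k = 0 by omega] at a2
      simp at a2
      exact ⟨0, by simp, by simp [a2], rfl⟩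
    | succ j ih =>
      have split : ∀ (y z : ℤ), Len R g n y 1 → Len R g n z j → (x : ℤ) = y + z →
          ∃ s : Multiset ℕ, (∀ a ∈ s, Len R g n a 1) ∧ s.sum = x ∧ Multiset.card s = j + 1 := by
        intro y z hy hz e1
        have s1 := (size H hg hn2 hy).1
        have s2 := (size H hg hn2 hz).1
        have hi : (0 : ℤ) ≤ j * n := by positivity
        obtain ⟨y', rfl⟩ := Int.eq_ofNat_of_zero_le (show 0 ≤ y by omega)
        obtain ⟨z', rfl⟩ := Int.eq_ofNat_of_zero_le (show 0 ≤ z by omega)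
        obtain ⟨s, t1, t2, t3⟩ := ih z' hz
        refine ⟨y' ::ₘ s, fun a ha => ?_, by rw [Multiset.sum_cons]; omega, by simp [t3]⟩
        rcases Multiset.mem_cons.mp ha with rfl | ha
        exacts [hy, t1 a ha]
      obtain ⟨k, l, ρ, a1, a2, a3⟩ := h
      rcases k with _ | k
      · obtain rfl : l = j + 1 := by omega
        obtain ⟨r, r1, r2⟩ := a1.succ
        exact split _ _ ⟨0, 1, r, C.one r1, rfl, rfl⟩ ⟨0, j, ρ - r, r2, rfl, by omega⟩
          (by rw [a2]; push_cast; ring)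
      · exact split _ _ ⟨1, 0, 0, C.zero, rfl, rfl⟩ ⟨k, l, ρ, a1, rfl, by omega⟩
          (by rw [a2]; push_cast; ring)

lemma cofin (H : Data R D m P Q) (hn : 0 < n) (hcop : IsCoprime (g : ℤ) n) :
    ((SG R g n : Set ℕ)ᶜ).Finite := by
  refine (Set.finite_lt_nat ((g + 1) * n * n)).subset fun x hx => ?_
  by_contra h
  apply hx
  have h' : (g + 1) * n * n ≤ x := not_lt.mp h
  obtain ⟨u, v, huv⟩ := hcop
  have hn' : (0 : ℤ) < n := by exact_mod_cast hn
  obtain ⟨t, ht⟩ := Int.eq_ofNat_of_zero_le (Int.emod_nonneg (-(x : ℤ) * u) hn'.ne')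
  have ht2 : (t : ℤ) < n := by rw [← ht]; exact Int.emod_lt_of_pos _ hn'
  have hdm := Int.mul_ediv_add_emod (-(x : ℤ) * u) n
  rw [ht] at hdm
  obtain ⟨q, hq⟩ : ∃ q : ℤ, (x : ℤ) + g * t = n * q :=
    ⟨x * v - g * (-(x : ℤ) * u / n), by linear_combination (-(x:ℤ)) * huv + g * hdm⟩
  have hq2 : ((g : ℤ) + 1) * t ≤ q := by
    have h3 : (((g : ℤ) + 1) * n) * n ≤ x := by exact_mod_cast h'
    have h4 : n * (((g : ℤ) + 1) * n) ≤ n * q := by
      rw [← hq]
      have : (0 : ℤ) ≤ g * t := by positivity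
      linarith
    have h5 := le_of_mul_le_mul_left h4 hn'
    have h6 : ((g : ℤ) + 1) * t ≤ (g + 1) * n :=
      mul_le_mul_of_nonneg_left ht2.le (by positivity)
    linarith
  obtain ⟨k, hk⟩ := Int.eq_ofNat_of_zero_le (show 0 ≤ q - ((g : ℤ) + 1) * t by linarith)
  refine ⟨k + t, k, t, _, C.rep H.neg t, ?_, rfl⟩
  rw [← hk]
  linear_combination hq

end

lemma HasLength.add {S : AddSubmonoid ℕ} {x y i j : ℕ} (a : HasLength S x i)
    (b : HasLength S y j) : HasLength S (x + y) (i + j) := by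
  obtain ⟨s, s1, s2, s3⟩ := a
  obtain ⟨t, t1, t2, t3⟩ := b
  refine ⟨s + t, fun r hr => ?_, by simp [s2, t2], by simp [s3, t3]⟩
  rcases Multiset.mem_add.mp hr with h | h
  exacts [s1 r h, t1 r h]

lemma HasLength.zero (S : AddSubmonoid ℕ) : HasLength S 0 0 := ⟨0, by simp, rfl, rfl⟩

lemma HasLength.nsmul {S : AddSubmonoid ℕ} {x i : ℕ} (a : HasLength S x i) (q : ℕ) :
    HasLength S (q * x) (q * i) := by
  induction q with
  | zero => simpa using HasLength.zero S
  | succ q ih => rw [Nat.succ_mul, Nat.succ_mul]; exact ih.add a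

lemma HasLength.mem {S : AddSubmonoid ℕ} {x i : ℕ} (a : HasLength S x i) : x ∈ S := by
  obtain ⟨s, s1, rfl, -⟩ := a
  exact S.multiset_sum_mem s fun a ha => (s1 a ha).1

lemma exists_gap {S : AddSubmonoid ℕ} {x j e : ℕ} (he : 0 < e) (a : HasLength S x j)
    (b : HasLength S x (j + e)) : ∃ d ∈ deltaSet S, d ≤ e := by
  classical
  have hex : ∃ d, 0 < d ∧ HasLength S x (j + d) := ⟨e, he, b⟩
  refine ⟨Nat.find hex, ⟨(Nat.find_spec hex).1, x, a.mem, j, a, (Nat.find_spec hex).2, ?_⟩,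
    Nat.find_min' hex ⟨he, b⟩⟩
  intro i h1 h2 h3
  exact Nat.find_min hex (m := i - j) (by omega) ⟨by omega, by
    rw [show j + (i - j) = i by omega]; exact h3⟩

/-- The minimum of a nonempty delta set divides all its elements. -/
lemma min_dvd (S : AddSubmonoid ℕ) (hne : (deltaSet S).Nonempty) :
    ∃ g ∈ deltaSet S, ∀ d ∈ deltaSet S, g ∣ d := by
  classical
  have hex : ∃ d, d ∈ deltaSet S := hne
  have hg := Nat.find_spec hex
  have hmin : ∀ d ∈ deltaSet S, Nat.find hex ≤ d := fun d hd => Nat.find_min' hex hd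
  generalize Nat.find hex = g at hg hmin
  refine ⟨g, hg, fun d hd => ?_⟩
  obtain ⟨g0, x, -, k, a1, a2, -⟩ := hg
  obtain ⟨d0, y, -, l, b1, b2, -⟩ := hd
  by_contra hnd
  have hr : 0 < d % g := Nat.pos_of_ne_zero fun h => hnd (Nat.dvd_of_mod_eq_zero h)
  have hdiv := Nat.div_add_mod d g
  obtain ⟨d', hd', hle⟩ := exists_gap hr (b1.add (a2.nsmul (d / g)))
    (by
      have := b2.add (a1.nsmul (d / g))
      convert this using 1
      rw [mul_add]
      have : g * (d / g) = d / g * g := mul_comm _ _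
      omega)
  have h1 := hmin d' hd'
  have h2 := Nat.mod_lt d g0
  omega

/-- the semigroup generated by `g + 1` and `2 g + 1` -/
def S2 (g : ℕ) : AddSubmonoid ℕ where
  carrier := {x | ∃ a b, x = a * (g + 1) + b * (2 * g + 1)}
  zero_mem' := ⟨0, 0, by simp⟩
  add_mem' := by
    rintro x y ⟨a, b, rfl⟩ ⟨c, d, rfl⟩
    exact ⟨a + c, b + d, by ring⟩

lemma atom2 {g : ℕ} (hg : 0 < g) (a : ℕ) : IsAtom' (S2 g) a ↔ a = g + 1 ∨ a = 2 * g + 1 := by
  constructor
  · rintro ⟨⟨u, v, huv⟩, h0, h1⟩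
    rcases u with _ | u
    · rcases v with _ | v
      · simp at huv; exact absurd huv h0
      · rcases h1 (2 * g + 1) ⟨0, 1, by ring⟩ (v * (2 * g + 1)) ⟨0, v, by ring⟩
          (by rw [huv]; ring) with h | h
        · omega
        · right; rw [huv]
          have : v * (2 * g + 1) = 0 := h
          rw [show 0 * (g + 1) + (v + 1) * (2 * g + 1) = v * (2 * g + 1) + (2 * g + 1) by ring,
            this]; omega
    · rcases h1 (g + 1) ⟨1, 0, by ring⟩ (u * (g + 1) + v * (2 * g + 1)) ⟨u, v, rfl⟩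
        (by rw [huv]; ring) with h | h
      · omega
      · left; rw [huv]
        rw [show (u + 1) * (g + 1) + v * (2 * g + 1) =
          (u * (g + 1) + v * (2 * g + 1)) + (g + 1) by ring, h]; omega
  · have hbig : ∀ b ∈ S2 g, b ≠ 0 → g + 1 ≤ b := by
      rintro b ⟨u, v, rfl⟩ h
      rcases u with _ | u
      · rcases v with _ | v
        · simp at h
        · rw [show 0 * (g + 1) + (v + 1) * (2 * g + 1) = v * (2 * g + 1) + (2 * g + 1) by ring]
          omega
      · rw [show (u + 1) * (g + 1) + v * (2 * g + 1) =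
          (u * (g + 1) + v * (2 * g + 1)) + (g + 1) by ring]; omega
    intro h
    refine ⟨?_, by omega, fun b hb c hc e => ?_⟩
    · rcases h with rfl | rfl
      · exact ⟨1, 0, by ring⟩
      · exact ⟨0, 1, by ring⟩
    · by_contra hne
      push Not at hne
      have := hbig b hb hne.1
      have := hbig c hc hne.2
      omega

lemma len2 {g : ℕ} (hg : 0 < g) (x j : ℕ) :
    HasLength (S2 g) x j ↔ ∃ a b, x = a * (g + 1) + b * (2 * g + 1) ∧ j = a + b := by
  unfold HasLength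
  simp only [atom2 hg]
  constructor
  · rintro ⟨s, s1, rfl, rfl⟩
    induction s using Multiset.induction_on with
    | empty => exact ⟨0, 0, by simp, rfl⟩
    | cons c s ih =>
      obtain ⟨a, b, h1, h2⟩ := ih fun a ha => s1 a (Multiset.mem_cons_of_mem ha)
      rcases s1 c (Multiset.mem_cons_self _ _) with rfl | rfl
      · exact ⟨a + 1, b, by rw [Multiset.sum_cons, h1]; ring, by rw [Multiset.card_cons]; omega⟩
      · exact ⟨a, b + 1, by rw [Multiset.sum_cons, h1]; ring, by rw [Multiset.card_cons]; omega⟩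
  · rintro ⟨a, b, rfl, rfl⟩
    refine ⟨Multiset.replicate a (g + 1) + Multiset.replicate b (2 * g + 1), fun c hc => ?_,
      by simp, by simp⟩
    rcases Multiset.mem_add.mp hc with h | h
    · exact Or.inl (Multiset.eq_of_mem_replicate h)
    · exact Or.inr (Multiset.eq_of_mem_replicate h)

lemma delta2 {g : ℕ} (hg : 0 < g) : deltaSet (S2 g) = {g} := by
  have step : ∀ x j δ : ℕ, 0 < δ → HasLength (S2 g) x j → HasLength (S2 g) x (j + δ) →
      g ∣ δ ∧ HasLength (S2 g) x (j + g) := by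
    intro x j δ hδ h1 h2
    rw [len2 hg] at h1 h2
    obtain ⟨a, b, h3, h4⟩ := h1
    obtain ⟨c, d, h5, h6⟩ := h2
    have e1 : ((δ : ℤ)) * (g + 1) = g * (b - d) := by
      zify at h3 h4 h5 h6
      linear_combination h3 - h5 - (g + 1) * h4 + (g + 1) * h6
    have hcop : IsCoprime (g : ℤ) ((g : ℤ) + 1) := ⟨-1, 1, by ring⟩
    obtain ⟨q, hq⟩ : (g : ℤ) ∣ δ := hcop.dvd_of_dvd_mul_right ⟨_, e1⟩
    have hg' : (0 : ℤ) < g := by exact_mod_cast hg
    have hq0 : 0 < q := by
      have : (0 : ℤ) < g * q := by rw [← hq]; exact_mod_cast hδ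
      exact (mul_pos_iff_of_pos_left hg').1 this
    have e2 : (b : ℤ) - d = q * (g + 1) := by
      rw [hq] at e1
      have : (g : ℤ) * (q * (g + 1)) = g * (b - d) := by linarith
      exact (mul_left_cancel₀ hg'.ne' this).symm
    have e3 : (g : ℤ) + 1 ≤ b := by
      have : 1 * ((g : ℤ) + 1) ≤ q * (g + 1) := mul_le_mul_of_nonneg_right hq0 (by positivity)
      have : (0 : ℤ) ≤ d := by positivity
      linarith
    have e4 : g + 1 ≤ b := by exact_mod_cast e3
    obtain ⟨b', rfl⟩ : ∃ b', b = b' + (g + 1) := ⟨b - (g + 1), by omega⟩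
    refine ⟨Int.natCast_dvd_natCast.1 ⟨q, hq⟩, (len2 hg _ _).2
      ⟨a + (2 * g + 1), b', by rw [h3]; ring, by omega⟩⟩
  ext d
  simp only [Set.mem_singleton_iff]
  constructor
  · rintro ⟨h0, x, -, k, h1, h2, h3⟩
    obtain ⟨h4, h5⟩ := step x k d h0 h1 h2
    have h6 := Nat.le_of_dvd h0 h4
    by_contra hne
    exact h3 (k + g) (by omega) (by omega) h5
  · rintro rfl
    have h1 : HasLength (S2 d) ((d + 1) * (2 * d + 1)) (d + 1) :=
      (len2 hg _ _).2 ⟨0, d + 1, by ring, by ring⟩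
    have h2 : HasLength (S2 d) ((d + 1) * (2 * d + 1)) (d + 1 + d) :=
      (len2 hg _ _).2 ⟨2 * d + 1, 0, by ring, by ring⟩
    refine ⟨hg, _, h1.mem, _, h1, h2, fun j h3 h4 h5 => ?_⟩
    obtain ⟨i, rfl⟩ : ∃ i, j = d + 1 + i := ⟨j - (d + 1), by omega⟩
    have h6 := (step _ _ i (by omega) h1 h5).1
    have := Nat.le_of_dvd (by omega) h6
    omega

lemma cofin2 (g : ℕ) : ((S2 g : Set ℕ)ᶜ).Finite := by
  refine (Set.finite_lt_nat ((g + 1) * (2 * g + 1))).subset fun x hx => ?_
  by_contra h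
  apply hx
  have h' : (g + 1) * (2 * g + 1) ≤ x := not_lt.mp h
  -- b ≡ ? : use b = residue with  x ≡ b (2g+1) mod (g+1), 2g+1 ≡ -1
  have h1 := Nat.div_add_mod x (g + 1)
  have h2 : x % (g + 1) < g + 1 := Nat.mod_lt x (Nat.succ_pos g)
  by_cases h0 : x % (g + 1) = 0
  · rw [h0, add_zero] at h1
    exact ⟨x / (g + 1), 0, by rw [zero_mul, add_zero, mul_comm]; exact h1.symm⟩
  · obtain ⟨t, ht⟩ : ∃ t, x % (g + 1) + t = g + 1 := ⟨g + 1 - x % (g + 1), by omega⟩
    have h3 : 2 * g + 1 ≤ x / (g + 1) := (Nat.le_div_iff_mul_le (Nat.succ_pos g)).2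
      (by rw [mul_comm]; exact h')
    obtain ⟨k, hk⟩ : ∃ k, x / (g + 1) + 1 = k + 2 * t := ⟨x / (g + 1) + 1 - 2 * t, by omega⟩
    refine ⟨k, t, ?_⟩
    zify at h1 ht hk ⊢
    linear_combination -h1 + ht + (g + 1) * hk

end Pool.Agent.H68.DS
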